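import Mathlib

set_option autoImplicit false

/-! Systems of components and curves: the graph part. -/

namespace Pool.Agent.X130.KD

open Finset

/-- A state of a diagram and its state graph, abstractly: `cc X` is the number of components of the
subgraph with the edges `X` (all vertices), `f X` the number of curves after changing the smoothings
at the crossings in `X`. -/
structure Sys (k : ℕ) where
  cc : Finset (Fin k) → ℕ
  f : Finset (Fin k) → ℕ
  f_pos : ∀ X, 1 ≤ f X
  f_empty : f ∅ = cc ∅
  cc_step : ∀ X e, e ∉ X → cc (insert e X) = cc X ∨ cc (insert e X) + 1 = cc X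
  br_mono : ∀ X Y e, X ⊆ Y → e ∉ Y → cc (insert e Y) + 1 = cc Y → cc (insert e X) + 1 = cc X
  f_step : ∀ X e, e ∉ X → f (insert e X) ≤ f X + 1
  f_br : ∀ X e, e ∉ X → cc (insert e X) + 1 = cc X → f (insert e X) + 1 = f X

namespace Sys

variable {k : ℕ} (Γ : Sys k)

/-- the number of vertices -/
def verts : ℕ := Γ.cc ∅

theorem cc_erase (X : Finset (Fin k)) (e : Fin k) (he : e ∈ X) :
    Γ.cc (X.erase e) = Γ.cc X ∨ Γ.cc (X.erase e) = Γ.cc X + 1 := by
  have h := Γ.cc_step (X.erase e) e (notMem_erase e X)
  rw [insert_erase he] at h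
  omega

/-- a bridge of a graph is a bridge of every subgraph that contains it -/
theorem bridge_mono (H S : Finset (Fin k)) (e : Fin k) (heS : e ∈ S) (hSH : S ⊆ H)
    (he : Γ.cc (H.erase e) = Γ.cc H + 1) : Γ.cc (S.erase e) = Γ.cc S + 1 := by
  have h := Γ.br_mono (S.erase e) (H.erase e) e (erase_subset_erase e hSH) (notMem_erase e H)
    (by rw [insert_erase (hSH heS)]; exact he.symm)
  rw [insert_erase heS] at h
  exact h.symm

theorem bridges_union (H B S : Finset (Fin k)) (hB : B ⊆ H)
    (hbr : ∀ e ∈ B, Γ.cc (H.erase e) = Γ.cc H + 1) (hS : S ⊆ H) (hSB : Disjoint S B) :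
    Γ.cc S = Γ.cc (S ∪ B) + B.card := by
  induction B using Finset.induction with
  | empty => simp
  | insert b B hb ih =>
    have hBH : B ⊆ H := fun x hx => hB (Finset.mem_insert_of_mem hx)
    have hbS : b ∉ S := fun h => Finset.disjoint_left.1 hSB h (Finset.mem_insert_self b B)
    have h1 := ih hBH (fun e he => hbr e (Finset.mem_insert_of_mem he))
      (hSB.mono_right (Finset.subset_insert b B))
    have h2 := Γ.bridge_mono H (S ∪ insert b B) b
      (Finset.mem_union_right _ (Finset.mem_insert_self b B))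
      (Finset.union_subset hS hB) (hbr b (Finset.mem_insert_self b B))
    have h3 : (S ∪ insert b B).erase b = S ∪ B := by
      rw [Finset.union_insert, Finset.erase_insert]
      simp [hbS, hb]
    rw [h3] at h2
    rw [Finset.card_insert_of_notMem hb, h1, h2]
    ring

theorem curves_bridges (H B S : Finset (Fin k)) (hB : B ⊆ H)
    (hBb : ∀ e ∈ B, Γ.cc (H.erase e) = Γ.cc H + 1) (hS : S ⊆ H) (hd : Disjoint S B) :
    Γ.f S = Γ.f (S ∪ B) + B.card := by
  classical
  induction B using Finset.induction_on with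
  | empty => simp
  | insert b B hb ih =>
    have hB' : B ⊆ H := (subset_insert _ _).trans hB
    have hd' : Disjoint S B := disjoint_of_subset_right (subset_insert _ _) hd
    have h1 := ih hB' (fun e he => hBb e (mem_insert_of_mem he)) hd'
    have hbS : b ∉ S := fun h => disjoint_left.mp hd h (mem_insert_self _ _)
    have hbSB : b ∉ S ∪ B := by
      rw [mem_union]
      rintro (h | h)
      · exact hbS h
      · exact hb h
    have h2 := Γ.bridge_mono H (insert b (S ∪ B)) b (mem_insert_self _ _)
      (insert_subset (hB (mem_insert_self _ _)) (union_subset hS hB'))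
      (hBb b (mem_insert_self _ _))
    rw [erase_insert hbSB] at h2
    have h4 := Γ.f_br (S ∪ B) b hbSB h2.symm
    have h5 : S ∪ insert b B = insert b (S ∪ B) := by rw [union_insert]
    rw [h1, h5, card_insert_of_notMem hb]
    omega

theorem cc_mono {S T : Finset (Fin k)} (h : S ⊆ T) :
    Γ.cc T ≤ Γ.cc S ∧ S.card + Γ.cc S ≤ T.card + Γ.cc T := by
  obtain ⟨D, hD⟩ : ∃ D, D = T \ S := ⟨_, rfl⟩
  have hT : T = S ∪ D := by rw [hD, union_sdiff_of_subset h]
  have hdis : Disjoint S D := by rw [hD]; exact disjoint_sdiff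
  subst hT
  clear hD h
  induction D using Finset.induction_on with
  | empty => simp
  | insert b D hb ih =>
    have hd' : Disjoint S D := disjoint_of_subset_right (subset_insert _ _) hdis
    have hbS : b ∉ S := fun h => disjoint_left.mp hdis h (mem_insert_self _ _)
    have hbSD : b ∉ S ∪ D := by
      rw [mem_union]
      rintro (h | h)
      · exact hbS h
      · exact hb h
    have h1 := ih hd'
    rw [union_insert, card_insert_of_notMem hbSD]
    have := Γ.cc_step (S ∪ D) b hbSD
    omega

theorem cc_pos (X : Finset (Fin k)) : X.card + Γ.cc X ≥ Γ.verts := by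
  have := (Γ.cc_mono (empty_subset X)).2
  rw [card_empty] at this
  unfold verts
  omega

theorem curves_le (X : Finset (Fin k)) : (Γ.f X : ℤ) ≤ X.card - Γ.verts + 2 * Γ.cc X := by
  induction X using Finset.induction_on with
  | empty => rw [Γ.f_empty, card_empty]; unfold verts; push_cast; omega
  | insert b X hb ih =>
    rw [card_insert_of_notMem hb]
    have h1 := Γ.f_step X b hb
    have h2 := Γ.f_br X b hb
    have h3 := Γ.cc_step X b hb
    push_cast
    omega

/-- The condition on the exceptional edges `M`: a subgraph with `j > 0` edges of `M`, none of them a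
bridge of it, has rank at least `2 j + 2`. -/
def RDom (M : Finset (Fin k)) : Prop :=
  ∀ X : Finset (Fin k), (X ∩ M).Nonempty → (∀ e ∈ X ∩ M, Γ.cc (X.erase e) = Γ.cc X) →
    Γ.cc X + 2 * (X ∩ M).card + 2 ≤ Γ.verts

/-- no loops -/
def NoLoop : Prop := ∀ e, Γ.cc {e} + 1 = Γ.verts

theorem NoLoop.lt (h : Γ.NoLoop) {X : Finset (Fin k)} (hX : X.Nonempty) : Γ.cc X + 1 ≤ Γ.verts := by
  obtain ⟨e, he⟩ := hX
  have h1 := (Γ.cc_mono (singleton_subset_iff.2 he)).1
  have h2 := h e
  omega

/-- in a set of parallel edges with an exceptional edge there is no other edge -/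
theorem single {M : Finset (Fin k)} (hM : Γ.RDom M) (hL : Γ.NoLoop) {S : Finset (Fin k)}
    (hS : Γ.cc S + 1 = Γ.verts) {e : Fin k} (he : e ∈ S) (heM : e ∈ M) : S = {e} := by
  by_contra hne
  have hcard : 1 < S.card := by
    by_contra hlt
    apply hne
    have h1 : 0 < S.card := card_pos.2 ⟨e, he⟩
    obtain ⟨a, ha⟩ := card_eq_one.1 (show S.card = 1 by omega)
    rw [ha] at he ⊢
    rw [mem_singleton] at he
    rw [he]
  have hkey := hM S ⟨e, mem_inter.2 ⟨he, heM⟩⟩ (by
    intro d hd
    have hdS := (mem_inter.1 hd).1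
    have h2 : (S.erase d).Nonempty := by
      rw [← card_pos, card_erase_of_mem hdS]
      omega
    have h3 := NoLoop.lt Γ hL h2
    have h4 := (Γ.cc_mono (erase_subset d S)).1
    omega)
  have : 0 < (S ∩ M).card := card_pos.2 ⟨e, mem_inter.2 ⟨he, heM⟩⟩
  omega

open Classical in
/-- the signed number of the sets with the largest possible number of curves -/
theorem signed_sum {M : Finset (Fin k)} (hM : Γ.RDom M) (hL : Γ.NoLoop) :
    ∑ S ∈ univ.filter (fun S : Finset (Fin k) => S.Nonempty ∧ Γ.f S + 2 = Γ.verts + S.card),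
        (-1 : ℤ) ^ S.card =
      (∑ F ∈ ((Mᶜ).powerset.erase ∅).filter (fun F => Γ.f F + 2 = Γ.verts + F.card),
        (-1 : ℤ) ^ F.card) - M.card := by
  have hrank : ∀ S : Finset (Fin k), S.Nonempty → Γ.f S + 2 = Γ.verts + S.card →
      Γ.cc S + 1 = Γ.verts := by
    intro S hS h
    have h1 := Γ.curves_le S
    have h2 := NoLoop.lt Γ hL hS
    omega
  have hsplit : univ.filter (fun S : Finset (Fin k) => S.Nonempty ∧ Γ.f S + 2 = Γ.verts + S.card) =
      ((Mᶜ).powerset.erase ∅).filter (fun F => Γ.f F + 2 = Γ.verts + F.card) ∪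
        M.image (fun e => {e}) := by
    ext S
    simp only [mem_filter, mem_univ, true_and, mem_union, mem_erase, mem_powerset, mem_image, ne_eq]
    constructor
    · rintro ⟨h1, h2⟩
      by_cases h3 : S ⊆ Mᶜ
      · exact Or.inl ⟨⟨nonempty_iff_ne_empty.1 h1, h3⟩, h2⟩
      · right
        obtain ⟨e, he, heM⟩ := not_subset.1 h3
        rw [mem_compl, not_not] at heM
        exact ⟨e, heM, (Γ.single hM hL (hrank S h1 h2) he heM).symm⟩
    · rintro (⟨⟨h1, h2⟩, h3⟩ | ⟨e, he, rfl⟩)
      · exact ⟨nonempty_iff_ne_empty.2 h1, h3⟩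
      · refine ⟨singleton_nonempty e, ?_⟩
        have h1 := hL e
        have h2 := Γ.f_br ∅ e (notMem_empty e) (by
          rw [insert_empty_eq]; exact h1)
        rw [insert_empty_eq, Γ.f_empty] at h2
        rw [card_singleton]
        unfold verts
        omega
  have hdisj : Disjoint (((Mᶜ).powerset.erase ∅).filter (fun F => Γ.f F + 2 = Γ.verts + F.card))
      (M.image (fun e => ({e} : Finset (Fin k)))) := by
    rw [disjoint_left]
    intro S h1 h2
    obtain ⟨e, he, rfl⟩ := mem_image.1 h2
    have h3 := mem_powerset.1 (mem_erase.1 (mem_filter.1 h1).1).2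
    exact mem_compl.1 (h3 (mem_singleton_self e)) he
  rw [hsplit, sum_union hdisj, sum_image (by
    intro x _ y _ h
    exact singleton_injective h)]
  simp
  ring

end Sys

end Pool.Agent.X130.KD
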