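import Pool.Agent.X130.KD.A
import Pool.Agent.X130.SD.C

set_option autoImplicit false

/-! Systems of components and curves: the state sum. -/

namespace Pool.Agent.X130.KD

open Finset LaurentPolynomial
open Pool.Agent.H891R2 Pool.Agent.H891R2.MT.T4b
open Pool.Agent.H891R2.DS (GE)

namespace Sys

variable {k : ℕ} (Γ : Sys k)

/-- the state sum -/
noncomputable def PP (M : Finset (Fin k)) : ℤ[T;T⁻¹] :=
  ∑ X : Finset (Fin k), T (2 * (X \ M).card - 2 * (X ∩ M).card) * (-T 2 - T (-2)) ^ (Γ.f X - 1)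

/-- the part of the state sum which belongs to the set `F` of edges outside `R` -/
noncomputable def blk (R F : Finset (Fin k)) : ℤ[T;T⁻¹] :=
  ∑ Q ∈ R.powerset, T (2 * F.card - 2 * Q.card) * (-T 2 - T (-2)) ^ (Γ.f (F ∪ Q) - 1)

/-- the state sum is the sum of the blocks -/
theorem PP_eq (R : Finset (Fin k)) :
    Γ.PP R = ∑ F ∈ (Rᶜ).powerset, Γ.blk R F := by
  unfold PP blk
  rw [← Finset.sum_product']
  refine Finset.sum_nbij' (fun S => (S \ R, S ∩ R)) (fun p => p.1 ∪ p.2) ?_ ?_ ?_ ?_ ?_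
  · intro S _
    rw [Finset.mem_product, Finset.mem_powerset, Finset.mem_powerset]
    refine ⟨?_, Finset.inter_subset_right⟩
    intro x hx
    exact Finset.mem_compl.2 (Finset.mem_sdiff.1 hx).2
  · intro p _
    exact Finset.mem_univ _
  · intro S _
    exact Finset.sdiff_union_inter S R
  · rintro ⟨F, Q⟩ hp
    rw [Finset.mem_product, Finset.mem_powerset, Finset.mem_powerset] at hp
    obtain ⟨h1, h2⟩ := hp
    have h3 : ∀ x ∈ F, x ∉ R := fun x hx => Finset.mem_compl.1 (h1 hx)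
    refine Prod.ext ?_ ?_
    · show (F ∪ Q) \ R = F
      ext x
      simp only [Finset.mem_sdiff, Finset.mem_union]
      constructor
      · rintro ⟨h | h, h'⟩
        · exact h
        · exact absurd (h2 h) h'
      · intro h
        exact ⟨Or.inl h, h3 x h⟩
    · show (F ∪ Q) ∩ R = Q
      ext x
      simp only [Finset.mem_inter, Finset.mem_union]
      constructor
      · rintro ⟨h | h, h'⟩
        · exact absurd h' (h3 x h)
        · exact h
      · intro h
        exact ⟨Or.inr h, h2 h⟩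
  · intro S _
    simp only
    rw [Finset.sdiff_union_inter S R]

open Classical in
/-- the edges of `R` which are bridges of `F ∪ R` -/
noncomputable def BB (R F : Finset (Fin k)) : Finset (Fin k) :=
  R.filter (fun e => Γ.cc ((F ∪ R).erase e) = Γ.cc (F ∪ R) + 1)

theorem BB_sub (R F : Finset (Fin k)) : Γ.BB R F ⊆ R := filter_subset _ _

theorem BB_br (R F : Finset (Fin k)) :
    ∀ e ∈ Γ.BB R F, Γ.cc ((F ∪ R).erase e) = Γ.cc (F ∪ R) + 1 :=
  fun _ he => (mem_filter.mp he).2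

theorem hdis (R F : Finset (Fin k)) (hFR : Disjoint F R) :
    ∀ Q' ⊆ R \ Γ.BB R F, Disjoint (F ∪ Q') (Γ.BB R F) := by
  intro Q' hQ'
  rw [disjoint_union_left]
  exact ⟨disjoint_of_subset_right (Γ.BB_sub R F) hFR, disjoint_of_subset_left hQ' sdiff_disjoint⟩

theorem hcurv (R F : Finset (Fin k)) (hFR : Disjoint F R) :
    ∀ Q' ⊆ R \ Γ.BB R F, ∀ Q'' ⊆ Γ.BB R F,
      Γ.f (F ∪ Q') = Γ.f (F ∪ (Q' ∪ Q'')) + Q''.card := by
  intro Q' hQ' Q'' hQ''
  rw [← union_assoc]
  exact Γ.curves_bridges (F ∪ R) Q'' (F ∪ Q')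
    (hQ''.trans ((Γ.BB_sub R F).trans subset_union_right))
    (fun e he => Γ.BB_br R F e (hQ'' he))
    (union_subset_union le_rfl (hQ'.trans sdiff_subset))
    (disjoint_of_subset_right hQ'' (Γ.hdis R F hFR Q' hQ'))

theorem hx (R F : Finset (Fin k)) (hFR : Disjoint F R) :
    ∀ Q' ⊆ R \ Γ.BB R F, (Γ.BB R F).card ≤ Γ.f (F ∪ Q') - 1 := by
  intro Q' hQ'
  have h1 := Γ.hcurv R F hFR Q' hQ' (Γ.BB R F) le_rfl
  have h2 := Γ.f_pos (F ∪ (Q' ∪ Γ.BB R F))
  omega

theorem blk_sum (R F : Finset (Fin k)) (hFR : Disjoint F R) :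
    Γ.blk R F = ∑ Q' ∈ (R \ Γ.BB R F).powerset, T (2 * F.card - 2 * Q'.card) *
      ((-1) ^ (Γ.BB R F).card * T (2 * (Γ.BB R F).card) *
        (-T 2 - T (-2)) ^ (Γ.f (F ∪ Q') - 1 - (Γ.BB R F).card)) := by
  unfold blk
  rw [DS.D8.sum_split R (Γ.BB R F) (Γ.BB_sub R F)]
  apply Finset.sum_congr rfl
  intro Q' hQ'
  rw [mem_powerset] at hQ'
  rw [← CA.C7.binomial (Γ.BB R F) _ (Γ.hx R F hFR Q' hQ'), mul_sum]
  apply Finset.sum_congr rfl
  intro Q'' hQ''
  rw [mem_powerset] at hQ''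
  have h1 := Γ.hcurv R F hFR Q' hQ' Q'' hQ''
  have h3 : Γ.f (F ∪ (Q' ∪ Q'')) - 1 = Γ.f (F ∪ Q') - 1 - Q''.card := by omega
  have h4 : (Q' ∪ Q'').card = Q'.card + Q''.card :=
    card_union_of_disjoint (disjoint_of_subset_right hQ''
      (disjoint_of_subset_left hQ' sdiff_disjoint))
  rw [h3, ← mul_assoc, ← T_add, h4]
  congr 2
  push_cast; ring

/-- the edges of `R` on cycles of `F ∪ R` -/
theorem nonbridge (R F : Finset (Fin k)) (hFR : Disjoint F R) :
    (F ∪ (R \ Γ.BB R F)) ∩ R = R \ Γ.BB R F ∧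
    ∀ e ∈ R \ Γ.BB R F, Γ.cc ((F ∪ (R \ Γ.BB R F)).erase e) = Γ.cc (F ∪ (R \ Γ.BB R F)) := by
  have bridges_union := Γ.bridges_union
  have hBH : Γ.BB R F ⊆ F ∪ R := (Γ.BB_sub R F).trans subset_union_right
  constructor
  · ext x
    simp only [mem_inter, mem_union, mem_sdiff]
    constructor
    · rintro ⟨h | h, hR⟩
      · exact absurd hR (disjoint_left.mp hFR h)
      · exact h
    · intro h
      exact ⟨Or.inr h, h.1⟩
  · intro e he
    have heR : e ∈ R := (mem_sdiff.mp he).1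
    have heB : e ∉ Γ.BB R F := (mem_sdiff.mp he).2
    have heH : e ∈ F ∪ R := mem_union_right _ heR
    have h3 : Γ.cc ((F ∪ R).erase e) = Γ.cc (F ∪ R) := by
      have h4 := Γ.cc_erase (F ∪ R) e heH
      have h5 : Γ.cc ((F ∪ R).erase e) ≠ Γ.cc (F ∪ R) + 1 :=
        fun h => heB (mem_filter.mpr ⟨heR, h⟩)
      omega
    have hunion : F ∪ (R \ Γ.BB R F) ∪ Γ.BB R F = F ∪ R := by
      rw [union_assoc, sdiff_union_of_subset (Γ.BB_sub R F)]
    have h6 := bridges_union (F ∪ R) (Γ.BB R F) (F ∪ (R \ Γ.BB R F)) hBH (Γ.BB_br R F)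
      (union_subset_union le_rfl sdiff_subset) (Γ.hdis R F hFR _ le_rfl)
    rw [hunion] at h6
    have h7 := bridges_union (F ∪ R) (Γ.BB R F) ((F ∪ (R \ Γ.BB R F)).erase e) hBH (Γ.BB_br R F)
      ((erase_subset _ _).trans (union_subset_union le_rfl sdiff_subset))
      (disjoint_of_subset_left (erase_subset _ _) (Γ.hdis R F hFR _ le_rfl))
    have h8 : (F ∪ (R \ Γ.BB R F)).erase e ∪ Γ.BB R F = (F ∪ R).erase e := by
      ext x
      by_cases hxe : x = e
      · subst hxe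
        simp [heB]
      · have : x ∈ F ∪ (R \ Γ.BB R F) ∪ Γ.BB R F ↔ x ∈ F ∪ R := by rw [hunion]
        simp only [mem_union, mem_erase] at this ⊢
        tauto
    rw [h8, h3, ← h6] at h7
    exact h7

/-- the blocks have no terms of low degree -/
theorem blk_ge' (R F : Finset (Fin k)) (hFR : Disjoint F R) (t : ℕ)
    (hmain : Γ.cc (F ∪ (R \ Γ.BB R F)) + 2 * (R \ Γ.BB R F).card + 1 + t ≤ Γ.verts) :
    GE (Γ.blk R F) (4 * R.card - 2 * Γ.verts + 6 + 4 * t) := by
  rw [Γ.blk_sum R F hFR]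
  apply DS.D8.GE_sum
  intro Q' hQ'
  rw [mem_powerset] at hQ'
  have hx0 := Γ.hx R F hFR Q' hQ'
  have hx1 := Γ.f_pos (F ∪ Q')
  have hcardR : R.card = (R \ Γ.BB R F).card + (Γ.BB R F).card := by
    rw [card_sdiff_of_subset (Γ.BB_sub R F)]
    have := card_le_card (Γ.BB_sub R F)
    omega
  have hcardU : ∀ Q ⊆ R, (F ∪ Q).card = F.card + Q.card := fun Q hQ =>
    card_union_of_disjoint (disjoint_of_subset_right hQ hFR)
  set B := Γ.BB R F with hB
  have hS := (SIn.T (2 * (F.card : ℤ) - 2 * Q'.card)).mul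
    (((SIn_sgn B.card).mul (SIn.T (2 * (B.card : ℤ)))).mul
      (SIn_d.pow (Γ.f (F ∪ Q') - 1 - B.card)))
  intro j hj
  refine le_trans ?_ (hS j hj).1
  have h1 := Γ.curves_le (F ∪ Q')
  have h2 := hcardU Q' (hQ'.trans sdiff_subset)
  have h3 := (Γ.cc_mono (union_subset_union (subset_refl F) hQ')).2
  rw [h2, hcardU _ sdiff_subset] at h3
  rw [h2] at h1
  have h4 : ((Γ.f (F ∪ Q') - 1 - B.card : ℕ) : ℤ) = Γ.f (F ∪ Q') - 1 - B.card := by
    omega
  rw [h4]
  push_cast at h1 ⊢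
  omega

section state

variable {M : Finset (Fin k)} (hM : Γ.RDom M) (hL : Γ.NoLoop)

include hM in
theorem all_bridges {e : Fin k} (he : e ∈ M) : Γ.cc (M.erase e) = Γ.cc M + 1 := by
  by_contra hne
  have h1 := Γ.nonbridge M ∅ (disjoint_empty_left M)
  rw [empty_union] at h1
  have h2 : (M \ Γ.BB M ∅).Nonempty := by
    refine ⟨e, mem_sdiff.2 ⟨he, fun h => hne ?_⟩⟩
    have := Γ.BB_br M ∅ e h
    rwa [empty_union] at this
  have h3 := hM (M \ Γ.BB M ∅) (by rw [h1.1]; exact h2) (by rw [h1.1]; exact h1.2)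
  rw [h1.1] at h3
  have h4 := Γ.cc_pos (M \ Γ.BB M ∅)
  omega

include hM in
theorem card_lt : M.card + 1 ≤ Γ.verts ∧ ∀ Q ⊆ M, Γ.f Q + Q.card = Γ.verts := by
  have h : ∀ Q ⊆ M, Γ.f Q + Q.card = Γ.verts := by
    intro Q hQ
    have h1 := Γ.curves_bridges M Q ∅ hQ (fun e he => Γ.all_bridges hM (hQ he)) (empty_subset _)
      (disjoint_empty_left _)
    rw [empty_union, Γ.f_empty] at h1
    exact h1.symm
  refine ⟨?_, h⟩
  have h1 := h M (subset_refl M)
  have h2 := Γ.f_pos M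
  omega

include hM in
theorem blk_empty :
    Γ.blk M ∅ = (-1) ^ M.card * T (2 * M.card) * (-T 2 - T (-2)) ^ (Γ.verts - 1 - M.card) := by
  obtain ⟨hv, hcur⟩ := Γ.card_lt hM
  have h := CA.C7.binomial M (Γ.verts - 1) (by omega)
  rw [← h]
  unfold blk
  apply Finset.sum_congr rfl
  intro Q hQR
  rw [Finset.mem_powerset] at hQR
  have h1 := hcur Q hQR
  rw [Finset.empty_union, Finset.card_empty]
  have e1 : (2 * ((0 : ℕ) : ℤ) - 2 * (Q.card : ℤ)) = -2 * (Q.card : ℤ) := by push_cast; ring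
  have e2 : Γ.f Q - 1 = Γ.verts - 1 - Q.card := by omega
  rw [e1, e2]

include hM in
theorem BB_all (F : Finset (Fin k)) (hFM : Disjoint F M)
    (hF : Γ.cc F + 1 = Γ.verts) : Γ.BB M F = M := by
  by_contra hne
  have hne2 : (M \ Γ.BB M F).Nonempty := by
    rw [sdiff_nonempty]
    intro h
    exact hne (subset_antisymm (Γ.BB_sub _ _) h)
  obtain ⟨h1, h2⟩ := Γ.nonbridge M F hFM
  have h3 := hM (F ∪ (M \ Γ.BB M F)) (by rw [h1]; exact hne2) (by rw [h1]; exact h2)
  rw [h1] at h3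
  have h4 := (Γ.cc_mono (subset_union_left : F ⊆ F ∪ (M \ Γ.BB M F))).2
  have h5 := card_union_le F (M \ Γ.BB M F)
  omega

include hM hL in
theorem blk_ge (F : Finset (Fin k)) (hFM : Disjoint F M) (hFn : F.Nonempty) :
    GE (Γ.blk M F) (4 * M.card - 2 * Γ.verts + 6) := by
  have hg := Γ.blk_ge' M F hFM 0 (by
    by_cases hne : (M \ Γ.BB M F).Nonempty
    · obtain ⟨h1, h2⟩ := Γ.nonbridge M F hFM
      have h3 := hM (F ∪ (M \ Γ.BB M F)) (by rw [h1]; exact hne) (by rw [h1]; exact h2)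
      rw [h1] at h3
      omega
    · rw [not_nonempty_iff_eq_empty] at hne
      rw [hne, union_empty, card_empty]
      have := NoLoop.lt Γ hL hFn
      omega)
  intro j hj
  have := hg j hj
  push_cast at this
  omega

include hM hL in
theorem blk_far (F : Finset (Fin k)) (hFM : Disjoint F M) (hFn : F.Nonempty)
    (hF : Γ.cc F + 1 ≠ Γ.verts) :
    GE (Γ.blk M F) (4 * M.card - 2 * Γ.verts + 10) := by
  have hg := Γ.blk_ge' M F hFM 1 (by
    by_cases hne : (M \ Γ.BB M F).Nonempty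
    · obtain ⟨h1, h2⟩ := Γ.nonbridge M F hFM
      have h3 := hM (F ∪ (M \ Γ.BB M F)) (by rw [h1]; exact hne) (by rw [h1]; exact h2)
      rw [h1] at h3
      omega
    · rw [not_nonempty_iff_eq_empty] at hne
      rw [hne, union_empty, card_empty]
      have := NoLoop.lt Γ hL hFn
      omega)
  intro j hj
  have := hg j hj
  push_cast at this
  omega

include hM hL in
theorem blk_near (F : Finset (Fin k)) (hFM : Disjoint F M) (hFn : F.Nonempty) :
    (Γ.blk M F).coeff (4 * M.card - 2 * Γ.verts + 6) =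
      if Γ.f F + 2 = Γ.verts + F.card then (-1) ^ (Γ.verts - 1) * (-1) ^ F.card else 0 := by
  by_cases hF : Γ.cc F + 1 = Γ.verts
  · have hB := Γ.BB_all hM F hFM hF
    have hcur := Γ.curves_le F
    have hx0 := Γ.hx M F hFM ∅ (empty_subset _)
    rw [hB, union_empty] at hx0
    have hpos := Γ.f_pos F
    have hcard := card_pos.2 hFn
    rw [Γ.blk_sum M F hFM, hB, sdiff_self, bot_eq_empty, powerset_empty,
      sum_singleton, union_empty, card_empty]
    rw [SD.coeff_T_mul, mul_assoc, SD.coeff_sgn_mul, SD.coeff_T_mul]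
    set N := Γ.f F - 1 - M.card with hN
    split_ifs with hmax
    · have e1 : (4 * (M.card : ℤ) - 2 * Γ.verts + 6 - (2 * F.card - 2 * ((0 : ℕ) : ℤ)) -
          2 * M.card) = -(2 * N) := by omega
      rw [e1, DS.D10.coeff_d_pow, ← pow_add, ← pow_add]
      have e2 : Γ.verts - 1 + F.card = M.card + N + 2 := by omega
      rw [e2, pow_add _ _ 2]
      norm_num
    · have hz : ((-T 2 - T (-2) : ℤ[T;T⁻¹]) ^ N).coeff
          (4 * (M.card : ℤ) - 2 * Γ.verts + 6 - (2 * F.card - 2 * ((0 : ℕ) : ℤ)) - 2 * M.card) = 0 := by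
        by_contra h
        have h1 := (SIn_d.pow N _ h).1
        push_cast at h1
        omega
      rw [hz, mul_zero]
  · have hne : ¬ (Γ.f F + 2 = Γ.verts + F.card) := by
      intro h
      apply hF
      have h1 := Γ.curves_le F
      have h2 := NoLoop.lt Γ hL hFn
      omega
    rw [if_neg hne]
    by_contra h
    have := Γ.blk_far hM hL F hFM hFn hF _ h
    omega

include hM in
theorem blk_zero :
    (Γ.blk M ∅).coeff (4 * M.card - 2 * Γ.verts + 6) =
      (-1) ^ (Γ.verts - 1) * (Γ.verts - 1 - M.card) := by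
  have h1 := (Γ.card_lt hM).1
  rw [Γ.blk_empty hM, mul_assoc, SD.coeff_sgn_mul, SD.coeff_T_mul]
  set N := Γ.verts - 1 - M.card with hN
  have e1 : (4 * (M.card : ℤ) - 2 * Γ.verts + 6 - 2 * M.card) = -(2 * N) + 4 := by
    omega
  rw [e1, SD.coeff_d_pow2, ← mul_assoc, ← pow_add]
  have e2 : M.card + N = Γ.verts - 1 := by omega
  have e3 : (N : ℤ) = Γ.verts - 1 - M.card := by omega
  rw [e2, e3]

include hM in
theorem blk_low : GE (Γ.blk M ∅) (4 * M.card - 2 * Γ.verts + 2) ∧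
    (Γ.blk M ∅).coeff (4 * M.card - 2 * Γ.verts + 2) = (-1) ^ (Γ.verts - 1) := by
  have h1 := (Γ.card_lt hM).1
  rw [Γ.blk_empty hM]
  set N := Γ.verts - 1 - M.card with hN
  constructor
  · intro j hj
    have h2 := (((SIn_sgn M.card).mul (SIn.T (2 * (M.card : ℤ)))).mul (SIn_d.pow N)) j hj
    omega
  · rw [mul_assoc, SD.coeff_sgn_mul, SD.coeff_T_mul]
    have e1 : (4 * (M.card : ℤ) - 2 * Γ.verts + 2 - 2 * M.card) = -(2 * N) := by omega
    rw [e1, DS.D10.coeff_d_pow, ← pow_add]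
    have e2 : M.card + N = Γ.verts - 1 := by omega
    rw [e2]

theorem coeff_sum {ι : Type} (s : Finset ι) (f : ι → ℤ[T;T⁻¹]) (j : ℤ) :
    (∑ F ∈ s, f F).coeff j = ∑ F ∈ s, (f F).coeff j := by
  classical
  induction s using Finset.induction_on with
  | empty => rw [sum_empty, sum_empty]; rfl
  | insert a s ha ih =>
    rw [sum_insert ha, sum_insert ha, AddMonoidAlgebra.coeff_add, Finsupp.add_apply, ih]

open Classical in
include hM hL in
/-- the two lowest coefficients of the state sum -/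
theorem coeffs :
    GE (Γ.PP M) (4 * M.card - 2 * Γ.verts + 2) ∧
    (Γ.PP M).coeff (4 * M.card - 2 * Γ.verts + 2) = (-1) ^ (Γ.verts - 1) ∧
    (Γ.PP M).coeff (4 * M.card - 2 * Γ.verts + 6) = (-1) ^ (Γ.verts - 1) * (Γ.verts - 1 +
      ∑ S ∈ univ.filter (fun S : Finset (Fin k) => S.Nonempty ∧ Γ.f S + 2 = Γ.verts + S.card),
        (-1) ^ S.card) := by
  have hmem : (∅ : Finset (Fin k)) ∈ (Mᶜ).powerset := Finset.empty_mem_powerset _
  have hsplit : Γ.PP M = Γ.blk M ∅ + ∑ F ∈ (Mᶜ).powerset.erase ∅, Γ.blk M F := by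
    rw [Γ.PP_eq, Finset.add_sum_erase _ _ hmem]
  have hFM : ∀ F ∈ (Mᶜ).powerset.erase ∅, Disjoint F M ∧ F.Nonempty := by
    intro F hF
    obtain ⟨h1, h2⟩ := Finset.mem_erase.1 hF
    rw [Finset.mem_powerset] at h2
    refine ⟨?_, Finset.nonempty_iff_ne_empty.2 h1⟩
    rw [Finset.disjoint_left]
    intro x hx
    exact Finset.mem_compl.1 (h2 hx)
  have hrest : GE (∑ F ∈ (Mᶜ).powerset.erase ∅, Γ.blk M F) (4 * M.card - 2 * Γ.verts + 6) := by
    apply DS.D8.GE_sum
    intro F hF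
    exact Γ.blk_ge hM hL F (hFM F hF).1 (hFM F hF).2
  obtain ⟨hl1, hl2⟩ := Γ.blk_low hM
  refine ⟨?_, ?_, ?_⟩
  · rw [hsplit]
    apply DS.D8.GE_add hl1
    intro j hj
    have := hrest j hj
    omega
  · rw [hsplit, AddMonoidAlgebra.coeff_add, Finsupp.add_apply, hl2]
    have : (∑ F ∈ (Mᶜ).powerset.erase ∅, Γ.blk M F).coeff (4 * M.card - 2 * Γ.verts + 2) = 0 := by
      by_contra h
      have := hrest _ h
      omega
    rw [this, add_zero]
  · rw [hsplit, AddMonoidAlgebra.coeff_add, Finsupp.add_apply, Γ.blk_zero hM, coeff_sum,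
      Γ.signed_sum hM hL]
    have e : ∑ F ∈ (Mᶜ).powerset.erase ∅, (Γ.blk M F).coeff (4 * M.card - 2 * Γ.verts + 6) =
        ∑ F ∈ ((Mᶜ).powerset.erase ∅).filter (fun F => Γ.f F + 2 = Γ.verts + F.card),
          (-1) ^ (Γ.verts - 1) * (-1 : ℤ) ^ F.card := by
      rw [sum_filter]
      apply sum_congr rfl
      intro F hF
      rw [Γ.blk_near hM hL F (hFM F hF).1 (hFM F hF).2]
    rw [e, ← mul_sum, ← mul_add]
    congr 1
    ring

end state

end Sys

end Pool.Agent.X130.KD
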