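import Pool.Agent.X130.KD.B
import Pool.Agent.H867R3.Kn.A4
import Pool.Agent.H867R3.Kn.C1
import Pool.Agent.H867R3.Kn.C2
import Pool.Agent.H867R3.Kn.C3

set_option autoImplicit false

/-! The system of a state of a Gauss word. -/

namespace Pool.Agent.X130.KD

open Finset Function

section generic

variable {H ι : Type} [DecidableEq ι] (r : H → H → Prop) (a b : ι → H)

/-- the relation `r` together with the pairs `(a c, b c)`, `c ∈ X` -/
def touch (X : Finset ι) (x y : H) : Prop := r x y ∨ ∃ c ∈ X, x = a c ∧ y = b c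

theorem touch_mono {X Y : Finset ι} (h : X ⊆ Y) {x y : H}
    (hxy : Quot.mk (touch r a b X) x = Quot.mk (touch r a b X) y) :
    Quot.mk (touch r a b Y) x = Quot.mk (touch r a b Y) y :=
  congrArg (Quot.lift (Quot.mk (touch r a b Y)) (fun x y h' => Quot.sound (by
    rcases h' with h' | ⟨c, hc, h'⟩
    · exact Or.inl h'
    · exact Or.inr ⟨c, h hc, h'⟩)) : Quot (touch r a b X) → Quot (touch r a b Y)) hxy

theorem touch_base (X : Finset ι) {x y : H} (hxy : Quot.mk r x = Quot.mk r y) :
    Quot.mk (touch r a b X) x = Quot.mk (touch r a b X) y :=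
  congrArg (Quot.lift (Quot.mk (touch r a b X)) (fun x y h' => Quot.sound (Or.inl h')) :
    Quot r → Quot (touch r a b X)) hxy

/-- the number of classes -/
noncomputable def nt (X : Finset ι) : ℕ := Nat.card (Quot (touch r a b X))

theorem nt_insert_eq (X : Finset ι) (e : ι)
    (h : Quot.mk (touch r a b X) (a e) = Quot.mk (touch r a b X) (b e)) :
    nt r a b (insert e X) = nt r a b X := by
  unfold nt
  apply Nat.card_congr
  refine ⟨Quot.lift (Quot.mk (touch r a b X)) ?_, Quot.lift (Quot.mk (touch r a b (insert e X))) ?_,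
    ?_, ?_⟩
  · rintro x y (h' | ⟨c, hc, rfl, rfl⟩)
    · exact Quot.sound (Or.inl h')
    · rcases mem_insert.1 hc with rfl | hc
      · exact h
      · exact Quot.sound (Or.inr ⟨c, hc, rfl, rfl⟩)
  · rintro x y (h' | ⟨c, hc, rfl, rfl⟩)
    · exact Quot.sound (Or.inl h')
    · exact Quot.sound (Or.inr ⟨c, mem_insert_of_mem hc, rfl, rfl⟩)
  · rintro ⟨x⟩; rfl
  · rintro ⟨x⟩; rfl

theorem nt_insert_ne [Finite H] (X : Finset ι) (e : ι)
    (h : Quot.mk (touch r a b X) (a e) ≠ Quot.mk (touch r a b X) (b e)) :
    nt r a b (insert e X) + 1 = nt r a b X := by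
  classical
  unfold nt
  have : Finite (Quot (touch r a b X)) := Quot.finite _
  have h1 : Nat.card {q : Quot (touch r a b X) // q ≠ Quot.mk _ (b e)} + 1 =
      Nat.card (Quot (touch r a b X)) := by
    have h2 := Nat.card_congr (Equiv.optionSubtypeNe (Quot.mk (touch r a b X) (b e)))
    rw [Finite.card_option] at h2
    exact h2
  rw [← h1]
  congr 1
  -- the class of a point, with the class of `b e` replaced by the one of `a e`
  obtain ⟨φ, hφ⟩ : ∃ φ : Quot (touch r a b X) → {q : Quot (touch r a b X) // q ≠ Quot.mk _ (b e)},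
      φ = fun q => if hq : q = Quot.mk _ (b e) then ⟨Quot.mk _ (a e), h⟩ else ⟨q, hq⟩ := ⟨_, rfl⟩
  have hφb : φ (Quot.mk _ (b e)) = ⟨Quot.mk _ (a e), h⟩ := by rw [hφ]; simp
  have hφn : ∀ q (hq : q ≠ Quot.mk _ (b e)), φ q = ⟨q, hq⟩ := by
    intro q hq
    rw [hφ]
    simp only [dif_neg hq]
  apply Nat.card_congr
  refine ⟨Quot.lift (fun x => φ (Quot.mk _ x)) ?_,
    fun q => Quot.lift (Quot.mk (touch r a b (insert e X))) ?_ q.1, ?_, ?_⟩
  · rintro x y (h' | ⟨c, hc, rfl, rfl⟩)
    · exact congrArg φ (Quot.sound (Or.inl h'))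
    · rcases mem_insert.1 hc with rfl | hc
      · rw [hφb, hφn _ h]
      · exact congrArg φ (Quot.sound (Or.inr ⟨c, hc, rfl, rfl⟩))
  · rintro x y (h' | ⟨c, hc, rfl, rfl⟩)
    · exact Quot.sound (Or.inl h')
    · exact Quot.sound (Or.inr ⟨c, mem_insert_of_mem hc, rfl, rfl⟩)
  · rintro ⟨x⟩
    show Quot.lift _ _ (φ (Quot.mk _ x)).1 = _
    by_cases hx : Quot.mk (touch r a b X) x = Quot.mk _ (b e)
    · rw [hx, hφb]
      have h3 : Quot.mk (touch r a b (insert e X)) x = Quot.mk _ (b e) :=
        touch_mono r a b (subset_insert e X) hx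
      rw [h3]
      exact Quot.sound (Or.inr ⟨e, mem_insert_self e X, rfl, rfl⟩)
    · rw [hφn _ hx]
  · rintro ⟨⟨x⟩, hx⟩
    exact hφn _ hx

theorem nt_step [Finite H] (X : Finset ι) (e : ι) :
    nt r a b (insert e X) = nt r a b X ∨ nt r a b (insert e X) + 1 = nt r a b X := by
  by_cases h : Quot.mk (touch r a b X) (a e) = Quot.mk (touch r a b X) (b e)
  · exact Or.inl (nt_insert_eq r a b X e h)
  · exact Or.inr (nt_insert_ne r a b X e h)

theorem ne_of_nt (X : Finset ι) (e : ι) (h : nt r a b (insert e X) + 1 = nt r a b X) :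
    Quot.mk (touch r a b X) (a e) ≠ Quot.mk (touch r a b X) (b e) := by
  intro h'
  rw [nt_insert_eq r a b X e h'] at h
  omega

theorem nt_empty : nt r a b ∅ = Nat.card (Quot r) := by
  unfold nt
  apply Nat.card_congr
  refine ⟨Quot.lift (Quot.mk r) ?_, Quot.lift (Quot.mk (touch r a b ∅)) ?_, ?_, ?_⟩
  · rintro x y (h' | ⟨c, hc, _⟩)
    · exact Quot.sound h'
    · exact absurd hc (notMem_empty c)
  · intro x y h'
    exact Quot.sound (Or.inl h')
  · rintro ⟨x⟩; rfl
  · rintro ⟨x⟩; rfl

end generic

open Pool.Agent Pool.Agent.H832R2.JR Pool.Agent.H867R3.Kn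

variable {N : ℕ}

/-- the two arcs at a crossing of a state -/
def arc (e : Bool) (c : Fin N) : Half N := ((c, false), e)

/-- the classes of a crossing -/
theorem at_crossing (G : GaussWord N) (s : Fin N → Bool) (h : Half N) :
    cls G (st s) h = cls G (st s) (arc false h.1.1) ∨ cls G (st s) h = cls G (st s) (arc true h.1.1) := by
  rcases h with ⟨⟨c, b⟩, e⟩
  unfold arc
  cases b with
  | false =>
    cases e with
    | false => exact Or.inl rfl
    | true => exact Or.inr rfl
  | true =>
    by_cases hs : s c = true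
    · have h1 := C2_cls_smooth G (st s) ((c, false), !e)
      rw [C3_smooth1 (st s) c (by simp [st, hs])] at h1
      simp only [Bool.not_not, Bool.not_false] at h1
      cases e with
      | false => exact Or.inr h1
      | true => exact Or.inl h1
    · have h1 := C2_cls_smooth G (st s) ((c, false), e)
      rw [C3_smooth2 (st s) c (by simp [st, hs])] at h1
      simp only [Bool.not_false] at h1
      cases e with
      | false => exact Or.inl h1
      | true => exact Or.inr h1

/-- the curves of a changed state stay in the components of the state graph -/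
theorem stays (G : GaussWord N) (s : Fin N → Bool) (r : Half N → Half N → Prop)
    (hr : ∀ x y, cls G (st s) x = cls G (st s) y → Quot.mk r x = Quot.mk r y)
    (X : Finset (Fin N)) (x y : Half N) (h : cls G (st (flip s X)) x = cls G (st (flip s X)) y) :
    Quot.mk (touch r (arc false) (arc true) X) x = Quot.mk (touch r (arc false) (arc true) X) y := by
  refine congrArg (Quot.lift (Quot.mk (touch r (arc false) (arc true) X)) ?_ :
    Quot (gen (arcFun G) (smooth (st (flip s X)))) → _) h
  have hbase : ∀ x y, cls G (st s) x = cls G (st s) y →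
      Quot.mk (touch r (arc false) (arc true) X) x = Quot.mk (touch r (arc false) (arc true) X) y :=
    fun x y h => touch_base r _ _ X (hr x y h)
  rintro x y (rfl | rfl)
  · exact hbase _ _ (C2_cls_arc G (st s) x).symm
  · by_cases hc : x.1.1 ∈ X
    · have h1 : ∀ h : Half N, h.1.1 ∈ X → Quot.mk (touch r (arc false) (arc true) X) h =
          Quot.mk (touch r (arc false) (arc true) X) (arc false h.1.1) := by
        intro h hh
        rcases at_crossing G s h with e | e
        · exact hbase _ _ e
        · rw [hbase _ _ e]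
          exact (Quot.sound (show touch r (arc false) (arc true) X (arc false h.1.1)
            (arc true h.1.1) from Or.inr ⟨h.1.1, hh, rfl, rfl⟩)).symm
      rw [h1 x hc, h1 (smooth (st (flip s X)) x) (by rw [smooth_fst]; exact hc), smooth_fst]
    · have e1 : smooth (st (flip s X)) x = smooth (st s) x := by
        apply C3_smooth_congr
        simp [st, H867R3.Kn.flip, hc]
      rw [e1]
      exact hbase _ _ (C2_cls_smooth G (st s) x).symm

/-- the system of a state -/
noncomputable def sys (hN : 0 < N) (G : GaussWord N) (s : Fin N → Bool) (r : Half N → Half N → Prop)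
    (hr : ∀ x y, cls G (st s) x = cls G (st s) y → Quot.mk r x = Quot.mk r y)
    (hc : Nat.card (Quot r) = L G (st s)) : Sys N where
  cc X := nt r (arc false) (arc true) X
  f X := ell G s X
  f_pos X := one_le_L G _ ⟨0, hN⟩
  f_empty := by
    rw [nt_empty, hc]
    show L G (st (flip s ∅)) = L G (st s)
    rw [C2_st_empty]
  cc_step X e _ := nt_step _ _ _ X e
  br_mono X Y e hXY _ h := by
    apply nt_insert_ne
    intro h'
    exact ne_of_nt _ _ _ Y e h (touch_mono _ _ _ hXY h')
  f_step X e _ := C1_step G s X e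
  f_br X e he h := by
    have h1 : cls G (st (flip s X)) ((e, false), false) ≠ cls G (st (flip s X)) ((e, false), true) := by
      intro h2
      exact ne_of_nt _ _ _ X e h (stays G s r hr X _ _ h2)
    have ht : st (flip s X) e ≠ 0 := C3_st_ne _ _
    have h3 := (t_A4 N G (st (flip s X)) e ht).1 h1 (st (flip s (insert e X)) e) (by
      unfold st H867R3.Kn.flip
      simp only [mem_insert_self, if_true, he, if_false]
      cases s e <;> decide)
    rw [← C1_upd s X e] at h3
    exact h3

end Pool.Agent.X130.KD
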