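import Pool.Agent.X130.KD.C
import Pool.Agent.X130.SD.G
import Pool.Agent.H867R3.Kn.A1
import Pool.Agent.H867R3.Kn.A2
import Pool.Agent.H867R3.Kn.A3
import Pool.Agent.H867R3.Kn.A5
import Pool.Agent.H867R3.Kn.A6
import Pool.Agent.H867R3.Kn.B1
import Pool.Agent.H867R3.Kn.B2
import Pool.Agent.H867R3.Kn.B3
import Pool.Agent.H867R3.Kn.C4
import Pool.Agent.H867R3.Kn.D2
import Pool.Agent.H867R3.Kn.E1
import Pool.Agent.H867R3.Kn.E2
import Pool.Agent.H867R3.Kn.E3
import Pool.Agent.H867R3.Kn.F1
import Pool.Agent.H867R3.Kn.F2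
import Pool.Agent.H867R3.Kn.M1

set_option autoImplicit false

/-! Knotoid diagrams with a dominated state. -/

namespace Pool.Agent.X130.KD

open Finset LaurentPolynomial Pool.Agent.H832R2.JR Pool.Agent.H867R3.Kn
open Pool.Agent.H891R2.DS (GE)

variable {N : ℕ}

/-- Two half edges are joined in the union of the state `s` and of the chords of the crossings in
`X`: in the state, or the chord of a crossing `c ∈ X` joins the two arcs of `s` at `c` (one of them
contains the half edge `((c, false), false)`, the other one `((c, false), true)`). -/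
def Linked (G : GaussWord N) (s : Fin N → Bool) (X : Finset (Fin N)) (x y : Half N) : Prop :=
  KJoined G s x y ∨ ∃ c ∈ X, x = ((c, false), false) ∧ y = ((c, false), true)

/-- The number of components of the graph whose vertices are the components (interval and circles)
of the state `s` and whose edges are the crossings in `X`. -/
noncomputable def pieces (G : GaussWord N) (s : Fin N → Bool) (X : Finset (Fin N)) : ℕ :=
  Nat.card (Quot (Linked G s X))

/-- The crossings at which the state `s` has the smoothing of type `A`. -/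
def asm (w s : Fin N → Bool) : Finset (Fin N) := univ.filter (fun c => s c = w c)

/-- The state `s` is adequate (no component meets itself at a crossing), and the exceptional
crossings `M` are far apart: in every subgraph `X` of the state graph which contains `j > 0` edges
of `M`, none of them a bridge of `X`, the number of components is at most `v - 2 j - 2`, `v` being
the number of components of the state. -/
def Dominated (G : GaussWord N) (s : Fin N → Bool) (M : Finset (Fin N)) : Prop :=
  Adequate G s ∧ ∀ X : Finset (Fin N), (X ∩ M).Nonempty →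
    (∀ e ∈ X ∩ M, pieces G s (X.erase e) = pieces G s X) →
      pieces G s X + 2 * (X ∩ M).card + 2 ≤ comps G s

theorem card_M (w s : Fin N → Bool) (X : Finset (Fin N)) :
    weight w (H867R3.Kn.flip s X) = (2 * ((asm w s).card : ℤ) - N) +
      (2 * ((X \ asm w s).card : ℤ) - 2 * ((X ∩ asm w s).card : ℤ)) := by
  classical
  have h : ∀ c, sgn (w c) * sgn (H867R3.Kn.flip s X c) =
      2 * (if c ∈ asm w s then (1 : ℤ) else 0) - 1 - 4 * (if c ∈ X ∩ asm w s then (1 : ℤ) else 0) +
        2 * (if c ∈ X then (1 : ℤ) else 0) := by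
    intro c
    have e1 : c ∈ asm w s ↔ s c = w c := by simp [asm]
    simp only [mem_inter, e1, H867R3.Kn.flip]
    by_cases h1 : c ∈ X <;> cases h2 : s c <;> cases h3 : w c <;> simp [h1, sgn]
  have h5 := card_inter_add_card_sdiff X (asm w s)
  unfold weight
  rw [sum_congr rfl (fun c _ => h c), sum_add_distrib, sum_sub_distrib, sum_sub_distrib,
    ← mul_sum, ← mul_sum, ← mul_sum, sum_ite_mem, sum_ite_mem, sum_ite_mem]
  simp only [univ_inter, sum_const, nsmul_eq_mul, mul_one, card_univ, Fintype.card_fin]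
  have h6 : ((X ∩ asm w s).card : ℤ) + (X \ asm w s).card = X.card := by exact_mod_cast h5
  linarith

/-- the system of a state of a knotoid diagram -/
noncomputable def ksys (hN : 0 < N) (G : GaussWord N) (s : Fin N → Bool) : Sys N :=
  sys hN G s (KJoined G s) (fun x y h => ((t_A1 N G s).1 x y).2 h) (t_A1 N G s).2

theorem ksys_cc (hN : 0 < N) (G : GaussWord N) (s : Fin N → Bool) (X : Finset (Fin N)) :
    (ksys hN G s).cc X = pieces G s X := rfl

theorem ksys_f (hN : 0 < N) (G : GaussWord N) (s : Fin N → Bool) (X : Finset (Fin N)) :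
    (ksys hN G s).f X = ell G s X := rfl

theorem ksys_verts (hN : 0 < N) (G : GaussWord N) (s : Fin N → Bool) :
    (ksys hN G s).verts = comps G s := nt_empty _ _ _

theorem kBracket_state (hN : 0 < N) (G : GaussWord N) (w s : Fin N → Bool) :
    kBracket G w = T (2 * ((asm w s).card : ℤ) - N) * (ksys hN G s).PP (asm w s) := by
  classical
  unfold kBracket Sys.PP
  rw [← (D2_flip_bij s).sum_comp (fun s' : Fin N → Bool =>
      (T (weight w s') * (-T 2 - T (-2)) ^ (comps G s' - 1) : ℤ[T;T⁻¹])), mul_sum]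
  refine Finset.sum_congr rfl (fun X _ => ?_)
  rw [card_M w s X, T_add, (t_A1 N G (H867R3.Kn.flip s X)).2, mul_assoc]
  rfl

theorem kPoly_coeff (hN : 0 < N) (G : GaussWord N) (w s : Fin N → Bool) :
    ∃ a : ℤ, |a| = 1 ∧ ∀ j, (kPoly G w).coeff j = a * ((ksys hN G s).PP (asm w s)).coeff
      (j + 3 * writhe w - (2 * (asm w s).card - N)) := by
  refine ⟨if Even (writhe w) then 1 else -1, by split_ifs <;> simp, fun j => ?_⟩
  unfold kPoly
  rw [kBracket_state hN G w s]
  have e1 : j + 3 * writhe w - (2 * ((asm w s).card : ℤ) - N) =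
      j - (-3 * writhe w) - (2 * ((asm w s).card : ℤ) - N) := by ring
  rw [e1]
  by_cases hw : Even (writhe w)
  · rw [if_pos hw, if_pos hw, one_mul, one_mul, SD.coeff_T_mul, SD.coeff_T_mul]
  · rw [if_neg hw, if_neg hw]
    have e0 : ∀ f : ℤ[T;T⁻¹], (-1 : ℤ[T;T⁻¹]) * T (-3 * writhe w) * f =
        -(T (-3 * writhe w) * f) := fun f => by ring
    rw [e0]
    have : ∀ f : ℤ[T;T⁻¹], (-f).coeff j = -(f.coeff j) := fun f => rfl
    rw [this, SD.coeff_T_mul, SD.coeff_T_mul, neg_one_mul]

theorem noLoop (hN : 0 < N) (G : GaussWord N) (s : Fin N → Bool) (hA : Adequate G s) :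
    (ksys hN G s).NoLoop := by
  intro c
  have h := nt_insert_ne (KJoined G s) (arc false) (arc true) (∅ : Finset (Fin N)) c (by
    intro h
    apply hA c
    -- classes of the empty set of chords
    refine congrArg (Quot.lift (Quot.mk (KJoined G s)) ?_ :
      Quot (touch (KJoined G s) (arc false) (arc true) ∅) → Quot (KJoined G s)) h
    rintro x y (h' | ⟨c, hc, _⟩)
    · exact Quot.sound h'
    · exact absurd hc (notMem_empty c))
  rw [insert_empty_eq] at h
  exact h

theorem rdom (hN : 0 < N) (G : GaussWord N) (s : Fin N → Bool) (M : Finset (Fin N))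
    (h : Dominated G s M) : (ksys hN G s).RDom M := by
  intro X hX hb
  rw [ksys_verts, ksys_cc]
  exact h.2 X hX hb

/-- the two lowest coefficients -/
theorem low (hN : 0 < N) (G : GaussWord N) (ε w s : Fin N → Bool) (hs : Spherical G ε)
    (h : Dominated G s (asm w s)) (o : Half N → Bool) (ho : Ori G (st s) o) :
    (∀ j, (kPoly G w).coeff j ≠ 0 →
      6 * ((asm w s).card : ℤ) - N - 2 * comps G s + 2 - 3 * writhe w ≤ j) ∧
    |(kPoly G w).coeff (6 * ((asm w s).card : ℤ) - N - 2 * comps G s + 2 - 3 * writhe w)| = 1 ∧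
    |(kPoly G w).coeff (6 * ((asm w s).card : ℤ) - N - 2 * comps G s + 2 - 3 * writhe w + 4)| =
      |((Set.range (key G s o)).ncard : ℤ) + 1 - comps G s| := by
  classical
  have hM := rdom hN G s _ h
  have hL := noLoop hN G s h.1
  obtain ⟨a, ha, hc⟩ := kPoly_coeff hN G w s
  obtain ⟨c1, c2, c3⟩ := (ksys hN G s).coeffs hM hL
  rw [ksys_verts] at c1 c2 c3
  have hAdq : Adq G s := fun c hc' => h.1 c (((t_A1 N G s).1 _ _).2 hc')
  have a3 := t_A3
  have a2 := t_A2 t_A1
  have b1 := t_B1 a2 a3
  have b2 := t_B2 a3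
  have b3 := t_B3 a2 a3 b1 b2
  have hC4 := t_C4 (t_C1 t_A4) (t_C2 t_A4 t_A5 b3) (t_C3 t_A4 t_A5) N G ε s o hs hAdq ho
  have hv : comps G s = ell G s ∅ := by
    rw [← ksys_verts hN, ← ksys_f hN, (ksys hN G s).f_empty]
    rfl
  have hsum : ∑ S ∈ univ.filter (fun S : Finset (Fin N) =>
      S.Nonempty ∧ (ksys hN G s).f S + 2 = comps G s + S.card), (-1 : ℤ) ^ S.card =
        -((Set.range (key G s o)).ncard : ℤ) := by
    rw [← hC4]
    apply sum_congr _ (fun _ _ => rfl)
    ext S
    simp only [mem_filter, mem_univ, true_and, ksys_f, hv]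
  rw [hsum] at c3
  refine ⟨?_, ?_, ?_⟩
  · intro j hj
    rw [hc] at hj
    have h5 := c1 _ (right_ne_zero_of_mul hj)
    linarith
  · rw [hc, abs_mul, ha, one_mul]
    have e1 : 6 * ((asm w s).card : ℤ) - N - 2 * comps G s + 2 - 3 * writhe w + 3 * writhe w -
        (2 * (asm w s).card - N) = 4 * (asm w s).card - 2 * comps G s + 2 := by ring
    rw [e1, c2, abs_pow, abs_neg, abs_one, one_pow]
  · rw [hc, abs_mul, ha, one_mul]
    have e1 : 6 * ((asm w s).card : ℤ) - N - 2 * comps G s + 2 - 3 * writhe w + 4 + 3 * writhe w -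
        (2 * (asm w s).card - N) = 4 * (asm w s).card - 2 * comps G s + 6 := by ring
    rw [e1, c3, abs_mul, abs_pow, abs_neg, abs_one, one_pow, one_mul, ← abs_neg]
    congr 1
    ring

theorem writhe_true (w : Fin N → Bool) :
    writhe w = 2 * ((asm w (fun _ => true)).card : ℤ) - N := by
  classical
  have h : ∀ c, sgn (w c) = 2 * (if c ∈ asm w (fun _ => true) then (1 : ℤ) else 0) - 1 := by
    intro c
    have e1 : c ∈ asm w (fun _ => true) ↔ true = w c := by simp [asm]
    simp only [e1]
    cases w c <;> simp [sgn]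
  unfold writhe
  rw [sum_congr rfl (fun c _ => h c), sum_sub_distrib, ← mul_sum, sum_ite_mem]
  simp

/-- detection -/
theorem detect (G : GaussWord N) (ε w s : Fin N → Bool) (hs : Spherical G ε)
    (h : Dominated G s (asm w s)) (h1 : kPoly G w = 1) : UntiedByKinks G := by
  rcases Nat.eq_zero_or_pos N with rfl | hN
  · exact ⟨Equiv.refl _, fun i => i.elim0⟩
  obtain ⟨o, ho⟩ := t_A6 N G (st s)
  obtain ⟨l1, l2, l3⟩ := low hN G ε w s hs h o ho
  rw [h1] at l1 l2 l3
  have hlow : 6 * ((asm w s).card : ℤ) - N - 2 * comps G s + 2 - 3 * writhe w = 0 := by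
    by_contra hne
    have : (1 : ℤ[T;T⁻¹]).coeff (6 * ((asm w s).card : ℤ) - N - 2 * comps G s + 2 - 3 * writhe w) ≠ 0 := by
      intro h0
      rw [h0, abs_zero] at l2
      exact absurd l2 (by norm_num)
    exact hne (SD.one_coeff _ this)
  have hsec : ((Set.range (key G s o)).ncard : ℤ) + 1 - comps G s = 0 := by
    rw [← abs_eq_zero, ← l3, abs_eq_zero, hlow]
    by_contra hne
    have := SD.one_coeff _ hne
    omega
  have hv : comps G s = ell G s ∅ := by
    rw [← ksys_verts hN, ← ksys_f hN, (ksys hN G s).f_empty]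
    rfl
  obtain ⟨o', hO', ho'⟩ := t_E2 t_E1 N G s o hN ho (by omega)
  have hw := t_E3 N G s o' hO' ho'
  have hst : s = fun _ => true := funext hw
  rw [hst, writhe_true w] at hlow
  have e6 : L G (fun _ => 1) = N + 1 := by
    have e7 : comps G (fun _ => true) = L G (st (fun _ => true)) := (t_A1 N G _).2
    have e8 : (st (fun _ : Fin N => true)) = fun _ => (1 : Fin 3) := by
      funext c
      simp [st]
    rw [e8] at e7
    omega
  exact t_F2 N G (t_F1 N G e6)

end Pool.Agent.X130.KD
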