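import Pool.Agent.X130.KD.D
import Pool.Agent.H832R2.JR.Moment

set_option autoImplicit false

/-! Knot diagrams on closed surfaces (virtual knot diagrams) with a dominated state. -/

namespace Pool.Agent.X130.KD

open Finset LaurentPolynomial Pool.Agent.H832R2.JR Pool.Agent.H867R3.Kn
open Pool.Agent.H891R2.DS (GE)

variable {N : ℕ}

/-- Two half edges are joined in the union of the state `s` and of the chords of the crossings in
`X`: in the state, or the chord of a crossing `c ∈ X` joins the two arcs of `s` at `c` (one of them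
contains the half edge `((c, false), false)`, the other one `((c, false), true)`). -/
def VLinked (G : GaussWord N) (s : Fin N → Bool) (X : Finset (Fin N)) (x y : Half N) : Prop :=
  Joined G s x y ∨ ∃ c ∈ X, x = ((c, false), false) ∧ y = ((c, false), true)

/-- The number of components of the graph whose vertices are the closed curves of the state `s` and
whose edges are the crossings in `X`. -/
noncomputable def vpieces (G : GaussWord N) (s : Fin N → Bool) (X : Finset (Fin N)) : ℕ :=
  Nat.card (Quot (VLinked G s X))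

/-- The state `s` is adequate (no curve meets itself at a crossing), and the exceptional crossings `M`
are far apart: in every subgraph `X` of the state graph which contains `j > 0` edges of `M`, none of
them a bridge of `X`, the number of components is at most `v - 2 j - 2`, `v` being the number of
curves of the state. -/
def VDominated (G : GaussWord N) (s : Fin N → Bool) (M : Finset (Fin N)) : Prop :=
  (∀ c, Quot.mk (Joined G s) ((c, false), false) ≠ Quot.mk (Joined G s) ((c, false), true)) ∧
  ∀ X : Finset (Fin N), (X ∩ M).Nonempty →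
    (∀ e ∈ X ∩ M, vpieces G s (X.erase e) = vpieces G s X) →
      vpieces G s X + 2 * (X ∩ M).card + 2 ≤ loops G s

/-- Every set `S` of parallel crossings of the state `s` (`o` is an orientation of its curves) is
flat: changing the smoothings of the crossings in `S` changes the number `v` of the curves to
`v + |S| - 2`. -/
def Flat (G : GaussWord N) (s : Fin N → Bool) (o : Half N → Bool) : Prop :=
  ∀ S : Finset (Fin N), S.Nonempty → (∀ c ∈ S, ∀ d ∈ S, key G s o c = key G s o d) →
    loops G (H867R3.Kn.flip s S) + 2 = loops G s + S.card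

theorem joined_cls (G : GaussWord N) (s : Fin N → Bool) (x y : Half N)
    (h : cls G (st s) x = cls G (st s) y) : Quot.mk (Joined G s) x = Quot.mk (Joined G s) y := by
  have harc : ∀ x, Quot.mk (Joined G s) x = Quot.mk (Joined G s) (arcFun G x) := by
    rintro ⟨p, _ | _⟩
    · show Quot.mk (Joined G s) (p, false) = Quot.mk (Joined G s) ((next G).symm p, true)
      refine Eq.symm (Quot.sound (Or.inl ⟨(next G).symm p, rfl, ?_⟩))
      simp
    · exact Quot.sound (Or.inl ⟨p, rfl, rfl⟩)
  have hsm : ∀ x, Quot.mk (Joined G s) x = Quot.mk (Joined G s) (smooth (st s) x) := by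
    rintro ⟨⟨c, b⟩, e⟩
    cases hs : s c
    · have e1 : smooth (st s) ((c, b), e) = ((c, !b), e) := by simp [smooth, st, hs]
      rw [e1]
      cases b
      · exact Quot.sound (Or.inr (Or.inr ⟨c, e, hs, rfl, rfl⟩))
      · exact Eq.symm (Quot.sound (Or.inr (Or.inr ⟨c, e, hs, rfl, rfl⟩)))
    · have e1 : smooth (st s) ((c, b), e) = ((c, !b), !e) := by simp [smooth, st, hs]
      rw [e1]
      cases e
      · exact Quot.sound (Or.inr (Or.inl ⟨c, b, hs, rfl, rfl⟩))
      · exact Eq.symm (Quot.sound (Or.inr (Or.inl ⟨c, !b, hs, rfl, by simp⟩)))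
  refine congrArg (Quot.lift (Quot.mk (Joined G s)) ?_ :
    Quot (gen (arcFun G) (smooth (st s))) → Quot (Joined G s)) h
  rintro x y (rfl | rfl)
  · exact harc x
  · exact hsm x

theorem loops_L (G : GaussWord N) (s : Fin N → Bool) : loops G s = L G (st s) := loops_eq G s

/-- the system of a state of a virtual knot diagram -/
noncomputable def vsys (hN : 0 < N) (G : GaussWord N) (s : Fin N → Bool) : Sys N :=
  sys hN G s (Joined G s) (joined_cls G s) (loops_L G s)

theorem vsys_cc (hN : 0 < N) (G : GaussWord N) (s : Fin N → Bool) (X : Finset (Fin N)) :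
    (vsys hN G s).cc X = vpieces G s X := rfl

theorem vsys_f (hN : 0 < N) (G : GaussWord N) (s : Fin N → Bool) (X : Finset (Fin N)) :
    (vsys hN G s).f X = ell G s X := rfl

theorem vsys_verts (hN : 0 < N) (G : GaussWord N) (s : Fin N → Bool) :
    (vsys hN G s).verts = loops G s := nt_empty _ _ _

theorem bracket_state (hN : 0 < N) (G : GaussWord N) (w s : Fin N → Bool) :
    bracket G w = T (2 * ((asm w s).card : ℤ) - N) * (vsys hN G s).PP (asm w s) := by
  classical
  unfold bracket Sys.PP
  rw [← (D2_flip_bij s).sum_comp (fun s' : Fin N → Bool =>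
      (T (weight w s') * (-T 2 - T (-2)) ^ (loops G s' - 1) : ℤ[T;T⁻¹])), mul_sum]
  refine Finset.sum_congr rfl (fun X _ => ?_)
  rw [card_M w s X, T_add, loops_L, mul_assoc]
  rfl

theorem fPoly_coeff (hN : 0 < N) (G : GaussWord N) (w s : Fin N → Bool) :
    ∃ a : ℤ, |a| = 1 ∧ ∀ j, (fPoly G w).coeff j = a * ((vsys hN G s).PP (asm w s)).coeff
      (j + 3 * writhe w - (2 * (asm w s).card - N)) := by
  refine ⟨if Even (writhe w) then 1 else -1, by split_ifs <;> simp, fun j => ?_⟩
  unfold fPoly
  rw [bracket_state hN G w s]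
  have e1 : j + 3 * writhe w - (2 * ((asm w s).card : ℤ) - N) =
      j - (-3 * writhe w) - (2 * ((asm w s).card : ℤ) - N) := by ring
  rw [e1]
  by_cases hw : Even (writhe w)
  · rw [if_pos hw, if_pos hw, one_mul, one_mul, SD.coeff_T_mul, SD.coeff_T_mul]
  · rw [if_neg hw, if_neg hw]
    have e0 : ∀ f : ℤ[T;T⁻¹], (-1 : ℤ[T;T⁻¹]) * T (-3 * writhe w) * f =
        -(T (-3 * writhe w) * f) := fun f => by ring
    rw [e0]
    have : ∀ f : ℤ[T;T⁻¹], (-f).coeff j = -(f.coeff j) := fun f => rfl
    rw [this, SD.coeff_T_mul, SD.coeff_T_mul, neg_one_mul]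

theorem vnoLoop (hN : 0 < N) (G : GaussWord N) (s : Fin N → Bool)
    (hA : ∀ c, Quot.mk (Joined G s) ((c, false), false) ≠ Quot.mk (Joined G s) ((c, false), true)) :
    (vsys hN G s).NoLoop := by
  intro c
  have h := nt_insert_ne (Joined G s) (arc false) (arc true) (∅ : Finset (Fin N)) c (by
    intro h
    apply hA c
    refine congrArg (Quot.lift (Quot.mk (Joined G s)) ?_ :
      Quot (touch (Joined G s) (arc false) (arc true) ∅) → Quot (Joined G s)) h
    rintro x y (h' | ⟨c, hc, _⟩)
    · exact Quot.sound h'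
    · exact absurd hc (notMem_empty c))
  rw [insert_empty_eq] at h
  exact h

theorem vrdom (hN : 0 < N) (G : GaussWord N) (s : Fin N → Bool) (M : Finset (Fin N))
    (h : VDominated G s M) : (vsys hN G s).RDom M := by
  intro X hX hb
  rw [vsys_verts, vsys_cc]
  exact h.2 X hX hb

theorem vadq (G : GaussWord N) (s : Fin N → Bool) (M : Finset (Fin N))
    (h : VDominated G s M) : Adq G s := fun c hc' => h.1 c (joined_cls G s _ _ hc')

/-- the signed number of the sets with the largest possible number of curves -/
theorem signed (G : GaussWord N) (s : Fin N → Bool) (o : Half N → Bool) (hadq : Adq G s)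
    (hori : Ori G (st s) o) (hF : Flat G s o) :
    ∑ S ∈ univ.filter (fun S : Finset (Fin N) => S.Nonempty ∧ ell G s S + 2 = loops G s + S.card),
      (-1 : ℤ) ^ S.card = -((Set.range (key G s o)).ncard : ℤ) := by
  classical
  have h0 : ell G s ∅ = loops G s := by
    unfold ell
    rw [C2_st_empty, loops_L]
  have hvalid : ∀ S : Finset (Fin N), (S.Nonempty ∧ ell G s S + 2 = loops G s + S.card) ↔
      (S.Nonempty ∧ ∀ c ∈ S, ∀ d ∈ S, key G s o c = key G s o d) := by
    intro S
    constructor
    · rintro ⟨hne, heq⟩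
      refine ⟨hne, fun c hc d hd => ?_⟩
      by_contra hkey
      have hcd : c ≠ d := by
        rintro rfl
        exact hkey rfl
      have h3 := t_C3 t_A4 t_A5 N G s o hadq hori c d hkey
      have hsub : ({c, d} : Finset (Fin N)) ⊆ S := by
        intro x hx
        rw [mem_insert, mem_singleton] at hx
        rcases hx with rfl | rfl
        · exact hc
        · exact hd
      have h1 := (t_C1 t_A4 N G s hadq {c, d} S hsub ⟨c, by simp⟩).1
      rw [card_pair hcd] at h1
      omega
    · rintro ⟨hne, hkey⟩
      refine ⟨hne, ?_⟩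
      have := hF S hne hkey
      rw [loops_L G (H867R3.Kn.flip s S)] at this
      exact this
  set R : Finset (Sym2 (Quot (gen (arcFun G) (smooth (st s)))) × Bool) :=
    univ.image (key G s o) with hR
  have hcard : ((Set.range (key G s o)).ncard : ℤ) = R.card := by
    have : (Set.range (key G s o)) = (R : Set _) := by
      rw [hR, coe_image, coe_univ, Set.image_univ]
    rw [this, Set.ncard_coe_finset]
  have hset : univ.filter (fun S : Finset (Fin N) => S.Nonempty ∧ ell G s S + 2 = loops G s + S.card) =
      R.biUnion (fun κ => (univ.filter (fun c => key G s o c = κ)).powerset.erase ∅) := by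
    ext S
    rw [mem_filter, mem_biUnion, hvalid S]
    constructor
    · rintro ⟨_, hne, hkey⟩
      obtain ⟨c, hc⟩ := hne
      refine ⟨key G s o c, mem_image_of_mem _ (mem_univ _), ?_⟩
      rw [mem_erase, mem_powerset]
      refine ⟨Nonempty.ne_empty ⟨c, hc⟩, fun d hd => ?_⟩
      rw [mem_filter]
      exact ⟨mem_univ _, hkey d hd c hc⟩
    · rintro ⟨κ, _, hS⟩
      rw [mem_erase, mem_powerset] at hS
      refine ⟨mem_univ _, nonempty_iff_ne_empty.2 hS.1, fun c hc d hd => ?_⟩
      rw [(mem_filter.1 (hS.2 hc)).2, (mem_filter.1 (hS.2 hd)).2]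
  rw [hset, hcard, sum_biUnion]
  · have hone : ∀ κ ∈ R, ∑ S ∈ (univ.filter (fun c => key G s o c = κ)).powerset.erase ∅,
        (-1 : ℤ) ^ S.card = -1 := by
      intro κ hκ
      obtain ⟨c, _, hc⟩ := mem_image.1 hκ
      have hne : (univ.filter (fun c => key G s o c = κ)).Nonempty :=
        ⟨c, mem_filter.2 ⟨mem_univ _, hc⟩⟩
      have h0 := sum_powerset_neg_one_pow_card_of_nonempty hne
      rw [← add_sum_erase _ _ (empty_mem_powerset _)] at h0
      simp only [card_empty, pow_zero] at h0
      linarith
    rw [sum_congr rfl hone, sum_const]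
    simp
  · intro κ _ κ' _ hne
    rw [Function.onFun, disjoint_left]
    intro S hS hS'
    rw [mem_erase, mem_powerset] at hS hS'
    obtain ⟨c, hc⟩ := nonempty_iff_ne_empty.2 hS.1
    exact hne ((mem_filter.1 (hS.2 hc)).2.symm.trans (mem_filter.1 (hS'.2 hc)).2)

/-- the lowest coefficients -/
theorem vlow (hN : 0 < N) (G : GaussWord N) (w s : Fin N → Bool)
    (h : VDominated G s (asm w s)) (o : Half N → Bool) (ho : Ori G (st s) o) :
    (∀ j, (fPoly G w).coeff j ≠ 0 →
      6 * ((asm w s).card : ℤ) - N - 2 * loops G s + 2 - 3 * writhe w ≤ j) ∧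
    |(fPoly G w).coeff (6 * ((asm w s).card : ℤ) - N - 2 * loops G s + 2 - 3 * writhe w)| = 1 ∧
    (Flat G s o →
      |(fPoly G w).coeff (6 * ((asm w s).card : ℤ) - N - 2 * loops G s + 2 - 3 * writhe w + 4)| =
        |((Set.range (key G s o)).ncard : ℤ) + 1 - loops G s|) := by
  classical
  have hM := vrdom hN G s _ h
  have hL := vnoLoop hN G s h.1
  obtain ⟨a, ha, hc⟩ := fPoly_coeff hN G w s
  obtain ⟨c1, c2, c3⟩ := (vsys hN G s).coeffs hM hL
  rw [vsys_verts] at c1 c2 c3
  have hAdq := vadq G s _ h
  refine ⟨?_, ?_, fun hF => ?_⟩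
  · intro j hj
    rw [hc] at hj
    have h5 := c1 _ (right_ne_zero_of_mul hj)
    linarith
  · rw [hc, abs_mul, ha, one_mul]
    have e1 : 6 * ((asm w s).card : ℤ) - N - 2 * loops G s + 2 - 3 * writhe w + 3 * writhe w -
        (2 * (asm w s).card - N) = 4 * (asm w s).card - 2 * loops G s + 2 := by ring
    rw [e1, c2, abs_pow, abs_neg, abs_one, one_pow]
  · have hsum := signed G s o hAdq ho hF
    have hsum2 : ∑ S ∈ univ.filter (fun S : Finset (Fin N) =>
        S.Nonempty ∧ (vsys hN G s).f S + 2 = loops G s + S.card), (-1 : ℤ) ^ S.card =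
          -((Set.range (key G s o)).ncard : ℤ) := by
      rw [← hsum]
      rfl
    rw [hsum2] at c3
    rw [hc, abs_mul, ha, one_mul]
    have e1 : 6 * ((asm w s).card : ℤ) - N - 2 * loops G s + 2 - 3 * writhe w + 4 + 3 * writhe w -
        (2 * (asm w s).card - N) = 4 * (asm w s).card - 2 * loops G s + 6 := by ring
    rw [e1, c3, abs_mul, abs_pow, abs_neg, abs_one, one_pow, one_mul, ← abs_neg]
    congr 1
    ring

/-- detection -/
theorem vdetect (G : GaussWord N) (w s : Fin N → Bool)
    (h : VDominated G s (asm w s)) (o : Half N → Bool) (ho : Ori G (st s) o) (hF : Flat G s o)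
    (h1 : fPoly G w = 1) : UntiedByKinks G := by
  rcases Nat.eq_zero_or_pos N with rfl | hN
  · exact ⟨Equiv.refl _, fun i => i.elim0⟩
  obtain ⟨l1, l2, l3⟩ := vlow hN G w s h o ho
  have l3 := l3 hF
  rw [h1] at l1 l2 l3
  have hlow : 6 * ((asm w s).card : ℤ) - N - 2 * loops G s + 2 - 3 * writhe w = 0 := by
    by_contra hne
    have : (1 : ℤ[T;T⁻¹]).coeff (6 * ((asm w s).card : ℤ) - N - 2 * loops G s + 2 - 3 * writhe w) ≠ 0 := by
      intro h0
      rw [h0, abs_zero] at l2
      exact absurd l2 (by norm_num)
    exact hne (SD.one_coeff _ this)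
  have hsec : ((Set.range (key G s o)).ncard : ℤ) + 1 - loops G s = 0 := by
    rw [← abs_eq_zero, ← l3, abs_eq_zero, hlow]
    by_contra hne
    have := SD.one_coeff _ hne
    omega
  have hv : loops G s = ell G s ∅ := by
    unfold ell
    rw [C2_st_empty, loops_L]
  obtain ⟨o', hO', ho'⟩ := t_E2 t_E1 N G s o hN ho (by omega)
  have hw := t_E3 N G s o' hO' ho'
  have hst : s = fun _ => true := funext hw
  rw [hst, writhe_true w] at hlow
  have e6 : L G (fun _ => 1) = N + 1 := by
    have e7 := loops_L G (fun _ => true)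
    have e8 : (st (fun _ : Fin N => true)) = fun _ => (1 : Fin 3) := by
      funext c
      simp [st]
    rw [e8] at e7
    omega
  exact t_F2 N G (t_F1 N G e6)

theorem mirror (G : GaussWord N) (w : Fin N → Bool) :
    fPoly G (fun c => !w c) = invert (fPoly G w) := by
  have hb : bracket G (fun c => !w c) = invert (bracket G w) := by
    unfold bracket
    rw [map_sum]
    refine Finset.sum_congr rfl fun s _ => ?_
    rw [map_mul, map_pow, M1_delta, invert_T, M1_weight]
  unfold fPoly
  rw [map_mul, map_mul, hb, M1_writhe, invert_T]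
  congr 2
  · by_cases h : Even (writhe w)
    · rw [if_pos h, if_pos h.neg, map_one]
    · rw [if_neg h, if_neg (fun h' => h (by simpa using h'.neg)), map_neg, map_one]
  · congr 1
    ring

end Pool.Agent.X130.KD
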